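import Mathlib

namespace Pool.Agent.Results.MP_525e39_nt.LocalSolubility

open Finset Polynomial
open scoped Pointwise

/-- the first form of the problem -/
def P1 (w x y z : ℕ) : ℕ := w ^ 2 + x ^ 3 + 2 * y ^ 3 + z ^ 4

/-- the second form of the problem -/
def P2 (w x y z : ℕ) : ℕ := w ^ 2 + x ^ 3 + 2 * y ^ 3 + 3 * z ^ 4

/-- the third form of the problem -/
def P3 (w x y z : ℕ) : ℕ := w ^ 2 + x ^ 3 + 2 * y ^ 3 + 6 * z ^ 4

/-- the fourth form of the problem -/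
def P4 (w x y z : ℕ) : ℕ := 2 * w ^ 2 + x ^ 3 + 4 * y ^ 3 + z ^ 4

/-- the form `a w² + x³ + b y³ + c z⁴` with `t = (a, b, c)` over a semiring -/
def P (t : ℕ × ℕ × ℕ) {R : Type} [CommSemiring R] (w x y z : R) : R :=
  t.1 * w ^ 2 + x ^ 3 + t.2.1 * y ^ 3 + t.2.2 * z ^ 4

/-! ### Solvability modulo a prime -/

lemma card_pow (p : ℕ) [Fact p.Prime] (k : ℕ) (hk : 0 < k) (c : ZMod p) (hc : c ≠ 0) :
    p - 1 ≤ k * #((univ.filter (fun x : ZMod p => x ≠ 0)).image (fun x : ZMod p => c * x ^ k)) := by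
  classical
  have h0 : #(univ.filter (fun x : ZMod p => x ≠ 0)) = p - 1 := by
    rw [filter_ne' univ (0 : ZMod p), card_erase_of_mem (mem_univ _), card_univ, ZMod.card]
  rw [← h0]
  refine card_le_mul_card_image _ _ ?_
  intro a _
  have hsub : (univ.filter (fun x : ZMod p => x ≠ 0)).filter (fun x => c * x ^ k = a) ⊆
      (nthRoots k (a / c)).toFinset := by
    intro x hx
    simp only [mem_filter] at hx
    rw [Multiset.mem_toFinset, mem_nthRoots hk]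
    rw [eq_div_iff hc, mul_comm]; exact hx.2
  calc #((univ.filter (fun x : ZMod p => x ≠ 0)).filter (fun x => c * x ^ k = a))
      ≤ #(nthRoots k (a / c)).toFinset := card_le_card hsub
    _ ≤ Multiset.card (nthRoots k (a / c)) := Multiset.toFinset_card_le _
    _ ≤ k := card_nthRoots _ _

lemma modp (p : ℕ) [Fact p.Prime] (hp : 7 ≤ p) (a b : ZMod p) (ha : a ≠ 0) (hb : b ≠ 0)
    (n : ZMod p) : ∃ w x y : ZMod p, w ≠ 0 ∧ a * w ^ 2 + x ^ 3 + b * y ^ 3 = n := by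
  classical
  let N := univ.filter (fun x : ZMod p => x ≠ 0)
  let A := N.image (fun x : ZMod p => a * x ^ 2)
  let B0 := N.image (fun x : ZMod p => (1 : ZMod p) * x ^ 3)
  let C0 := N.image (fun x : ZMod p => b * x ^ 3)
  have hA : p - 1 ≤ 2 * #A := card_pow p 2 (by norm_num) a ha
  have hB : p - 1 ≤ 3 * #B0 := card_pow p 3 (by norm_num) 1 one_ne_zero
  have hC : p - 1 ≤ 3 * #C0 := card_pow p 3 (by norm_num) b hb
  have hB0 : (0 : ZMod p) ∉ B0 := by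
    simp only [B0, N, mem_image, mem_filter, mem_univ, true_and, one_mul, not_exists, not_and]
    intro x hx; exact pow_ne_zero _ hx
  have hC0 : (0 : ZMod p) ∉ C0 := by
    simp only [C0, N, mem_image, mem_filter, mem_univ, true_and, not_exists, not_and]
    intro x hx; exact mul_ne_zero hb (pow_ne_zero _ hx)
  let B := insert (0 : ZMod p) B0
  let C := insert (0 : ZMod p) C0
  have hBc : #B = #B0 + 1 := card_insert_of_notMem hB0
  have hCc : #C = #C0 + 1 := card_insert_of_notMem hC0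
  have hAne : A.Nonempty := by
    rw [← card_pos]; omega
  have hBne : B.Nonempty := ⟨0, mem_insert_self _ _⟩
  have hCne : C.Nonempty := ⟨0, mem_insert_self _ _⟩
  have h1 := ZMod.cauchy_davenport (Fact.out : p.Prime) hAne hBne
  have h2 := ZMod.cauchy_davenport (Fact.out : p.Prime) (hAne.add hBne) hCne
  have h3 : p ≤ #(A + B + C) := by omega
  have h4 : A + B + C = univ := by
    rw [← card_eq_iff_eq_univ, ZMod.card]
    have := card_le_univ (A + B + C)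
    rw [ZMod.card] at this
    omega
  have h5 : n ∈ A + B + C := by rw [h4]; exact mem_univ _
  rw [mem_add] at h5
  obtain ⟨u, hu, v, hv, huv⟩ := h5
  rw [mem_add] at hu
  obtain ⟨s, hs, r, hr, hsr⟩ := hu
  have hs' : ∃ w : ZMod p, w ≠ 0 ∧ a * w ^ 2 = s := by
    simpa [A, N] using hs
  have hr' : ∃ x : ZMod p, x ^ 3 = r := by
    rcases mem_insert.mp hr with h | h
    · exact ⟨0, by rw [h]; ring⟩
    · simp only [B0, N, mem_image, mem_filter, mem_univ, true_and, one_mul] at h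
      obtain ⟨x, _, hx⟩ := h; exact ⟨x, hx⟩
  have hv' : ∃ y : ZMod p, b * y ^ 3 = v := by
    rcases mem_insert.mp hv with h | h
    · exact ⟨0, by rw [h]; ring⟩
    · simp only [C0, N, mem_image, mem_filter, mem_univ, true_and] at h
      obtain ⟨x, _, hx⟩ := h; exact ⟨x, hx⟩
  obtain ⟨w, hw, rfl⟩ := hs'
  obtain ⟨x, rfl⟩ := hr'
  obtain ⟨y, rfl⟩ := hv'
  exact ⟨w, x, y, hw, by rw [hsr, huv]⟩

/-! ### Hensel -/

lemma hensel_sq (p : ℕ) [Fact p.Prime] (a u w0 : ℤ_[p]) (h2 : ‖(2 : ℤ_[p]) * a * w0‖ = 1)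
    (h : ‖a * w0 ^ 2 - u‖ < 1) : ∃ w : ℤ_[p], a * w ^ 2 = u := by
  let F : ℤ_[p][X] := Polynomial.C a * X ^ 2 - Polynomial.C u
  have hF : ∀ w : ℤ_[p], F.aeval w = a * w ^ 2 - u := by intro w; simp [F]
  have hF' : ∀ w : ℤ_[p], F.derivative.aeval w = 2 * a * w := by
    intro w; simp [F]; ring
  have := hensels_lemma (p := p) (F := F) (a := w0) (by
    rw [hF, hF', h2]; simpa using h)
  obtain ⟨z, hz, _⟩ := this
  exact ⟨z, by rw [hF] at hz; exact sub_eq_zero.mp hz⟩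

lemma hensel_cube (p : ℕ) [Fact p.Prime] (u x0 : ℤ_[p]) (h2 : ‖(3 : ℤ_[p]) * x0 ^ 2‖ = 1)
    (h : ‖x0 ^ 3 - u‖ < 1) : ∃ x : ℤ_[p], x ^ 3 = u := by
  let F : ℤ_[p][X] := X ^ 3 - Polynomial.C u
  have hF : ∀ w : ℤ_[p], F.aeval w = w ^ 3 - u := by intro w; simp [F]
  have hF' : ∀ w : ℤ_[p], F.derivative.aeval w = 3 * w ^ 2 := by
    intro w; simp [F]; left; norm_num
  have := hensels_lemma (p := p) (F := F) (a := x0) (by
    rw [hF, hF', h2]; simpa using h)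
  obtain ⟨z, hz, _⟩ := this
  exact ⟨z, by rw [hF] at hz; exact sub_eq_zero.mp hz⟩


lemma norm_lt_iff (p : ℕ) [Fact p.Prime] (x : ℤ_[p]) : ‖x‖ < 1 ↔ PadicInt.toZMod x = 0 := by
  rw [← RingHom.mem_ker, PadicInt.ker_toZMod, IsLocalRing.mem_maximalIdeal, PadicInt.mem_nonunits]

lemma norm_eq_iff (p : ℕ) [Fact p.Prime] (x : ℤ_[p]) : ‖x‖ = 1 ↔ PadicInt.toZMod x ≠ 0 := by
  rw [Ne, ← norm_lt_iff]
  have := PadicInt.norm_le_one x
  constructor
  · intro h; rw [h]; exact lt_irrefl _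
  · intro h; exact le_antisymm this (not_lt.mp h)

lemma lift (p : ℕ) [Fact p.Prime] (x : ZMod p) : ∃ y : ℤ_[p], PadicInt.toZMod y = x :=
  ⟨(x.val : ℤ_[p]), by rw [map_natCast, ZMod.natCast_zmod_val]⟩

/-- from a solution modulo an odd prime with `w ≠ 0` to a solution over `ℤ_p` -/
lemma odd_lift (p : ℕ) [Fact p.Prime] (hp : p ≠ 2) (a b c : ℕ) (ha : (a : ZMod p) ≠ 0)
    (h : ∀ n : ZMod p, ∃ w x y : ZMod p, w ≠ 0 ∧ (a : ZMod p) * w ^ 2 + x ^ 3 + b * y ^ 3 = n)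
    (n : ℤ_[p]) : ∃ w x y z : ℤ_[p], P (a, b, c) w x y z = n := by
  obtain ⟨w0, x0, y0, hw, hn⟩ := h (PadicInt.toZMod n)
  obtain ⟨w1, rfl⟩ := lift p w0
  obtain ⟨x, rfl⟩ := lift p x0
  obtain ⟨y, rfl⟩ := lift p y0
  have h2 : (2 : ZMod p) ≠ 0 := by
    have := (Fact.out : p.Prime)
    intro h
    have h' : ((2 : ℕ) : ZMod p) = 0 := by exact_mod_cast h
    rw [ZMod.natCast_eq_zero_iff] at h'
    exact hp ((Nat.prime_dvd_prime_iff_eq this Nat.prime_two).mp h')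
  obtain ⟨w, hw2⟩ := hensel_sq p (a : ℤ_[p]) (n - x ^ 3 - b * y ^ 3) w1
    (by
      rw [norm_eq_iff]; simp only [map_mul, map_natCast, map_ofNat]
      exact mul_ne_zero (mul_ne_zero h2 ha) hw)
    (by
      rw [norm_lt_iff]; simp only [map_sub, map_mul, map_natCast, map_pow]
      rw [← hn]; ring)
  refine ⟨w, x, y, 0, ?_⟩
  simp only [P]
  rw [hw2]; ring

lemma two_lift (a b c : ℕ) (h : ∀ n : ZMod 2, ∃ w z : ZMod 2, n - a * w ^ 2 - c * z ^ 4 = 1)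
    (n : ℤ_[2]) : ∃ w x y z : ℤ_[2], P (a, b, c) w x y z = n := by
  obtain ⟨w0, z0, hn⟩ := h (PadicInt.toZMod n)
  obtain ⟨w, rfl⟩ := lift 2 w0
  obtain ⟨z, rfl⟩ := lift 2 z0
  obtain ⟨x, hx⟩ := hensel_cube 2 (n - a * w ^ 2 - c * z ^ 4) 1
    (by
      rw [norm_eq_iff]; simp only [map_mul, map_pow, map_one, map_ofNat]; decide)
    (by
      rw [norm_lt_iff]; simp only [map_sub, map_mul, map_natCast, map_pow, map_one]
      rw [hn]; ring)
  refine ⟨w, x, 0, z, ?_⟩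
  simp only [P]
  rw [hx]; ring

lemma d31 : ∀ n : ZMod 3, ∃ w x y : ZMod 3,
    w ≠ 0 ∧ ((1 : ℕ) : ZMod 3) * w ^ 2 + x ^ 3 + ((2 : ℕ) : ZMod 3) * y ^ 3 = n := by decide

lemma d32 : ∀ n : ZMod 3, ∃ w x y : ZMod 3,
    w ≠ 0 ∧ ((2 : ℕ) : ZMod 3) * w ^ 2 + x ^ 3 + ((4 : ℕ) : ZMod 3) * y ^ 3 = n := by decide

lemma d51 : ∀ n : ZMod 5, ∃ w x y : ZMod 5,
    w ≠ 0 ∧ ((1 : ℕ) : ZMod 5) * w ^ 2 + x ^ 3 + ((2 : ℕ) : ZMod 5) * y ^ 3 = n := by decide

lemma d52 : ∀ n : ZMod 5, ∃ w x y : ZMod 5,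
    w ≠ 0 ∧ ((2 : ℕ) : ZMod 5) * w ^ 2 + x ^ 3 + ((4 : ℕ) : ZMod 5) * y ^ 3 = n := by decide

lemma e31 : ((1 : ℕ) : ZMod 3) ≠ 0 := by decide
lemma e32 : ((2 : ℕ) : ZMod 3) ≠ 0 := by decide
lemma e51 : ((1 : ℕ) : ZMod 5) ≠ 0 := by decide
lemma e52 : ((2 : ℕ) : ZMod 5) ≠ 0 := by decide

theorem padic (t : ℕ × ℕ × ℕ) (ht : t = (1, 2, 1) ∨ t = (1, 2, 3) ∨ t = (1, 2, 6) ∨ t = (2, 4, 1))
    (p : ℕ) [hpf : Fact p.Prime] (n : ℤ_[p]) : ∃ w x y z : ℤ_[p], P t w x y z = n := by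
  by_cases hp7 : 7 ≤ p
  · have hne : ∀ k : ℕ, k = 1 ∨ k = 2 ∨ k = 4 → (k : ZMod p) ≠ 0 := by
      intro k hk h
      rw [ZMod.natCast_eq_zero_iff] at h
      have : p ≤ k := Nat.le_of_dvd (by omega) h
      omega
    have hp2 : p ≠ 2 := by omega
    rcases ht with rfl | rfl | rfl | rfl
    · exact odd_lift p hp2 1 2 1 (hne 1 (by omega)) (modp p hp7 _ _ (hne 1 (by omega)) (hne 2 (by omega))) n
    · exact odd_lift p hp2 1 2 3 (hne 1 (by omega)) (modp p hp7 _ _ (hne 1 (by omega)) (hne 2 (by omega))) n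
    · exact odd_lift p hp2 1 2 6 (hne 1 (by omega)) (modp p hp7 _ _ (hne 1 (by omega)) (hne 2 (by omega))) n
    · exact odd_lift p hp2 2 4 1 (hne 2 (by omega)) (modp p hp7 _ _ (hne 2 (by omega)) (hne 4 (by omega))) n
  · have hpr := hpf.out
    have h235 : p = 2 ∨ p = 3 ∨ p = 5 := by
      have h2 := hpr.two_le
      have h4 : p ≠ 4 := by rintro rfl; exact absurd hpr (by norm_num)
      have h6 : p ≠ 6 := by rintro rfl; exact absurd hpr (by norm_num)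
      omega
    rcases h235 with rfl | rfl | rfl
    · rcases ht with rfl | rfl | rfl | rfl <;> exact two_lift _ _ _ (by decide) n
    · rcases ht with rfl | rfl | rfl | rfl
      · exact odd_lift 3 (by norm_num) 1 2 1 e31 d31 n
      · exact odd_lift 3 (by norm_num) 1 2 3 e31 d31 n
      · exact odd_lift 3 (by norm_num) 1 2 6 e31 d31 n
      · exact odd_lift 3 (by norm_num) 2 4 1 e32 d32 n
    · rcases ht with rfl | rfl | rfl | rfl
      · exact odd_lift 5 (by norm_num) 1 2 1 e51 d51 n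
      · exact odd_lift 5 (by norm_num) 1 2 3 e51 d51 n
      · exact odd_lift 5 (by norm_num) 1 2 6 e51 d51 n
      · exact odd_lift 5 (by norm_num) 2 4 1 e52 d52 n

/-! ### All moduli -/

/-- solvability modulo `m` for every class -/
def Q (t : ℕ × ℕ × ℕ) (m : ℕ) : Prop := ∀ n : ZMod m, ∃ w x y z : ZMod m, P t w x y z = n

lemma P_map (t : ℕ × ℕ × ℕ) {R S : Type} [CommSemiring R] [CommSemiring S] (f : R →+* S)
    (w x y z : R) : f (P t w x y z) = P t (f w) (f x) (f y) (f z) := by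
  simp [P]

lemma Q_mul (t : ℕ × ℕ × ℕ) (m k : ℕ) (h : Nat.Coprime m k) (hm : Q t m) (hk : Q t k) :
    Q t (m * k) := by
  intro n
  let e := ZMod.chineseRemainder h
  obtain ⟨w1, x1, y1, z1, h1⟩ := hm (e n).1
  obtain ⟨w2, x2, y2, z2, h2⟩ := hk (e n).2
  refine ⟨e.symm (w1, w2), e.symm (x1, x2), e.symm (y1, y2), e.symm (z1, z2), ?_⟩
  apply e.injective
  have h3 := P_map t (e : ZMod (m * k) →+* ZMod m × ZMod k) (e.symm (w1, w2)) (e.symm (x1, x2))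
    (e.symm (y1, y2)) (e.symm (z1, z2))
  simp only [RingHom.coe_coe, RingEquiv.apply_symm_apply] at h3
  rw [h3]
  apply Prod.ext
  · have := P_map t (RingHom.fst (ZMod m) (ZMod k)) (w1, w2) (x1, x2) (y1, y2) (z1, z2)
    simp only [RingHom.coe_fst] at this
    rw [this, h1]
  · have := P_map t (RingHom.snd (ZMod m) (ZMod k)) (w1, w2) (x1, x2) (y1, y2) (z1, z2)
    simp only [RingHom.coe_snd] at this
    rw [this, h2]

lemma Q_pow (t : ℕ × ℕ × ℕ) (ht : t = (1, 2, 1) ∨ t = (1, 2, 3) ∨ t = (1, 2, 6) ∨ t = (2, 4, 1))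
    (p k : ℕ) (hp : p.Prime) : Q t (p ^ k) := by
  have : Fact p.Prime := ⟨hp⟩
  have : NeZero (p ^ k) := ⟨pow_ne_zero _ hp.ne_zero⟩
  intro n
  obtain ⟨w, x, y, z, h⟩ := padic t ht p (n.val : ℤ_[p])
  refine ⟨PadicInt.toZModPow k w, PadicInt.toZModPow k x, PadicInt.toZModPow k y,
    PadicInt.toZModPow k z, ?_⟩
  rw [← P_map, h, map_natCast, ZMod.natCast_zmod_val]

lemma Q_all (t : ℕ × ℕ × ℕ) (ht : t = (1, 2, 1) ∨ t = (1, 2, 3) ∨ t = (1, 2, 6) ∨ t = (2, 4, 1))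
    (m : ℕ) (hm : m ≠ 0) : Q t m := by
  induction m using Nat.recOnPosPrimePosCoprime with
  | prime_pow p k hp _ => exact Q_pow t ht p k hp
  | zero => exact absurd rfl hm
  | one => intro n; exact ⟨0, 0, 0, 0, Subsingleton.elim _ _⟩
  | coprime a b ha hb hab iha ihb =>
    exact Q_mul t a b hab (iha (by omega)) (ihb (by omega))

theorem mod_all (t : ℕ × ℕ × ℕ) (ht : t = (1, 2, 1) ∨ t = (1, 2, 3) ∨ t = (1, 2, 6) ∨ t = (2, 4, 1))
    (m : ℕ) (hm : m ≠ 0) (n : ℕ) : ∃ w x y z : ℕ, P t w x y z ≡ n [MOD m] := by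
  have : NeZero m := ⟨hm⟩
  obtain ⟨w, x, y, z, h⟩ := Q_all t ht m hm (n : ZMod m)
  refine ⟨w.val, x.val, y.val, z.val, ?_⟩
  rw [← ZMod.natCast_eq_natCast_iff]
  have := P_map t (Nat.castRingHom (ZMod m)) w.val x.val y.val z.val
  simp only [Nat.coe_castRingHom, ZMod.natCast_zmod_val] at this
  rw [this, h]

/-- For each of the four forms every residue class modulo every `m ≥ 1` is represented. -/
theorem result (F : ℕ → ℕ → ℕ → ℕ → ℕ) (hF : F = P1 ∨ F = P2 ∨ F = P3 ∨ F = P4) (m n : ℕ)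
    (hm : 1 ≤ m) : ∃ w x y z : ℕ, F w x y z ≡ n [MOD m] := by
  have hm0 : m ≠ 0 := by omega
  rcases hF with rfl | rfl | rfl | rfl
  · obtain ⟨w, x, y, z, h⟩ := mod_all (1, 2, 1) (by simp) m hm0 n
    have e : P1 w x y z = P (1, 2, 1) w x y z := by simp only [P1, P, Nat.cast_id]; ring
    exact ⟨w, x, y, z, by rw [e]; exact h⟩
  · obtain ⟨w, x, y, z, h⟩ := mod_all (1, 2, 3) (by simp) m hm0 n
    have e : P2 w x y z = P (1, 2, 3) w x y z := by simp only [P2, P, Nat.cast_id]; ring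
    exact ⟨w, x, y, z, by rw [e]; exact h⟩
  · obtain ⟨w, x, y, z, h⟩ := mod_all (1, 2, 6) (by simp) m hm0 n
    have e : P3 w x y z = P (1, 2, 6) w x y z := by simp only [P3, P, Nat.cast_id]; ring
    exact ⟨w, x, y, z, by rw [e]; exact h⟩
  · obtain ⟨w, x, y, z, h⟩ := mod_all (2, 4, 1) (by simp) m hm0 n
    have e : P4 w x y z = P (2, 4, 1) w x y z := by simp only [P4, P, Nat.cast_id]; ring
    exact ⟨w, x, y, z, by rw [e]; exact h⟩

end Pool.Agent.Results.MP_525e39_nt.LocalSolubility
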