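import Mathlib

namespace Pool.Agent.Results.MP_525e39_nt.ShortGaps

/-- the first form of the problem -/
def P1 (w x y z : ℕ) : ℕ := w ^ 2 + x ^ 3 + 2 * y ^ 3 + z ^ 4

/-- the second form of the problem -/
def P2 (w x y z : ℕ) : ℕ := w ^ 2 + x ^ 3 + 2 * y ^ 3 + 3 * z ^ 4

/-- the third form of the problem -/
def P3 (w x y z : ℕ) : ℕ := w ^ 2 + x ^ 3 + 2 * y ^ 3 + 6 * z ^ 4

/-- the fourth form of the problem -/
def P4 (w x y z : ℕ) : ℕ := 2 * w ^ 2 + x ^ 3 + 4 * y ^ 3 + z ^ 4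

/-- the form `a w² + x³ + b y³ + c z⁴` with `t = (a, b, c)` -/
def P (t : ℕ × ℕ × ℕ) (w x y z : ℕ) : ℕ :=
  t.1 * w ^ 2 + x ^ 3 + t.2.1 * y ^ 3 + t.2.2 * z ^ 4

/-! ### Greedy approximation -/

lemma step (k a m : ℕ) (hk : 1 ≤ k) (ha : 1 ≤ a) :
    ∃ t, a * t ^ k ≤ m ∧ (m - a * t ^ k) ^ k ≤ (2 ^ k - 1) ^ k * a * m ^ (k - 1) := by
  classical
  let p : ℕ → Prop := fun t => a * t ^ k ≤ m
  have hp0 : p 0 := by
    show a * 0 ^ k ≤ m
    rw [zero_pow (by omega)]; simp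
  have hb : ∀ t, p t → t ≤ m := by
    intro t ht
    have h1 : t ≤ t ^ k := Nat.le_self_pow (by omega) t
    have h2 : t ^ k ≤ a * t ^ k := Nat.le_mul_of_pos_left _ (by omega)
    exact le_trans h1 (le_trans h2 ht)
  let t := Nat.findGreatest p m
  have ht : p t := Nat.findGreatest_spec (P := p) (Nat.zero_le m) hp0
  have ht1 : ¬ p (t + 1) := by
    intro h
    have := Nat.le_findGreatest (P := p) (hb _ h) h
    have h2 : t + 1 ≤ t := this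
    omega
  refine ⟨t, ht, ?_⟩
  have ht' : a * t ^ k ≤ m := ht
  have ht1' : m < a * (t + 1) ^ k := by
    have : ¬ (a * (t + 1) ^ k ≤ m) := ht1
    omega
  have hc1 : 1 ≤ 2 ^ k - 1 := by
    have : 2 ^ 1 ≤ 2 ^ k := Nat.pow_le_pow_right (by norm_num) hk
    omega
  obtain ⟨j, rfl⟩ : ∃ j, k = j + 1 := ⟨k - 1, by omega⟩
  simp only [Nat.add_sub_cancel]
  rcases Nat.eq_zero_or_pos t with h0 | h0
  · have hm : m < a := by simpa [h0] using ht1'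
    rw [h0]
    simp only [ne_eq, Nat.add_eq_zero_iff, one_ne_zero, and_false, not_false_eq_true, zero_pow,
      mul_zero, tsub_zero]
    calc m ^ (j + 1) = 1 * m * m ^ j := by ring
      _ ≤ (2 ^ (j + 1) - 1) ^ (j + 1) * a * m ^ j := by
          gcongr
          exact Nat.one_le_pow _ _ hc1
  · -- `(t+1)^k ≤ t^k + (2^k - 1) t^(k-1)`
    have key : ∀ i : ℕ, (t + 1) ^ (i + 1) ≤ t ^ (i + 1) + (2 ^ (i + 1) - 1) * t ^ i := by
      intro i
      induction i with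
      | zero => simp
      | succ i ih =>
        have h2 : 1 ≤ 2 ^ (i + 1) := Nat.one_le_two_pow
        obtain ⟨e, he⟩ : ∃ e, 2 ^ (i + 1) = e + 1 := ⟨2 ^ (i + 1) - 1, by omega⟩
        have he2 : 2 ^ (i + 1 + 1) - 1 = 2 * e + 1 := by
          rw [pow_succ, he]; omega
        rw [he2]
        rw [he, Nat.add_sub_cancel] at ih
        have hti : t ^ i ≤ t ^ (i + 1) := Nat.pow_le_pow_right h0 (by omega)
        calc (t + 1) ^ (i + 1 + 1) = (t + 1) ^ (i + 1) * (t + 1) := by ring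
          _ ≤ (t ^ (i + 1) + e * t ^ i) * (t + 1) := Nat.mul_le_mul_right _ ih
          _ = t ^ (i + 1 + 1) + t ^ (i + 1) + e * t ^ (i + 1) + e * t ^ i := by ring
          _ ≤ t ^ (i + 1 + 1) + t ^ (i + 1) + e * t ^ (i + 1) + e * t ^ (i + 1) := by
              gcongr
          _ = t ^ (i + 1 + 1) + (2 * e + 1) * t ^ (i + 1) := by ring
    have h3 : m - a * t ^ (j + 1) ≤ a * ((2 ^ (j + 1) - 1) * t ^ j) := by
      have h4 : a * (t + 1) ^ (j + 1) ≤ a * (t ^ (j + 1) + (2 ^ (j + 1) - 1) * t ^ j) :=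
        Nat.mul_le_mul_left _ (key j)
      rw [mul_add] at h4
      omega
    calc (m - a * t ^ (j + 1)) ^ (j + 1) ≤ (a * ((2 ^ (j + 1) - 1) * t ^ j)) ^ (j + 1) :=
          Nat.pow_le_pow_left h3 _
      _ = (2 ^ (j + 1) - 1) ^ (j + 1) * a * (a * t ^ (j + 1)) ^ j := by ring
      _ ≤ (2 ^ (j + 1) - 1) ^ (j + 1) * a * m ^ j := by
          gcongr

lemma greedy (a b c n : ℕ) (ha : 1 ≤ a) (ha2 : a ≤ 2) (hb : 1 ≤ b)
    (hc : 1 ≤ c) (hbc : b * c ≤ 12) :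
    ∃ w x y z : ℕ, P (a, b, c) w x y z ≤ n ∧ (n - P (a, b, c) w x y z) ^ 6 ≤ 522 ^ 6 * n := by
  obtain ⟨w, hw, hw2⟩ := step 2 a n (by norm_num) ha
  obtain ⟨x, hx, hx2⟩ := step 3 1 (n - a * w ^ 2) (by norm_num) le_rfl
  obtain ⟨y, hy, hy2⟩ := step 3 b (n - a * w ^ 2 - 1 * x ^ 3) (by norm_num) hb
  obtain ⟨z, hz, hz2⟩ := step 4 c (n - a * w ^ 2 - 1 * x ^ 3 - b * y ^ 3) (by norm_num) hc
  refine ⟨w, x, y, z, ?_, ?_⟩
  · simp only [P]; omega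
  have e : n - P (a, b, c) w x y z = n - a * w ^ 2 - 1 * x ^ 3 - b * y ^ 3 - c * z ^ 4 := by
    simp only [P]; omega
  rw [e]
  generalize n - a * w ^ 2 - 1 * x ^ 3 - b * y ^ 3 - c * z ^ 4 = r4 at *
  generalize n - a * w ^ 2 - 1 * x ^ 3 - b * y ^ 3 = r3 at *
  generalize n - a * w ^ 2 - 1 * x ^ 3 = r2 at *
  generalize n - a * w ^ 2 = r1 at *
  norm_num at hw2 hx2 hy2 hz2
  -- r1^2 ≤ 9 a n, r2^3 ≤ 343 r1^2, r3^3 ≤ 343 b r2^2, r4^4 ≤ 50625 c r3^3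
  have h1 : r4 ^ 4 ≤ 208372500 * r2 ^ 2 := by
    calc r4 ^ 4 ≤ 50625 * c * r3 ^ 3 := hz2
      _ ≤ 50625 * c * (343 * b * r2 ^ 2) := by gcongr
      _ = 17364375 * (b * c) * r2 ^ 2 := by ring
      _ ≤ 17364375 * 12 * r2 ^ 2 := by gcongr
      _ = 208372500 * r2 ^ 2 := by ring
  have h2 : r4 ^ 12 ≤ 208372500 ^ 3 * 343 ^ 2 * 18 ^ 2 * n ^ 2 := by
    calc r4 ^ 12 = (r4 ^ 4) ^ 3 := by ring
      _ ≤ (208372500 * r2 ^ 2) ^ 3 := by gcongr
      _ = 208372500 ^ 3 * (r2 ^ 3) ^ 2 := by ring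
      _ ≤ 208372500 ^ 3 * (343 * r1 ^ 2) ^ 2 := by gcongr
      _ = 208372500 ^ 3 * 343 ^ 2 * (r1 ^ 2) ^ 2 := by ring
      _ ≤ 208372500 ^ 3 * 343 ^ 2 * (9 * a * n) ^ 2 := by gcongr
      _ ≤ 208372500 ^ 3 * 343 ^ 2 * (9 * 2 * n) ^ 2 := by gcongr
      _ = 208372500 ^ 3 * 343 ^ 2 * 18 ^ 2 * n ^ 2 := by ring
  have h3 : (r4 ^ 6) ^ 2 ≤ (522 ^ 6 * n) ^ 2 := by
    calc (r4 ^ 6) ^ 2 = r4 ^ 12 := by ring
      _ ≤ 208372500 ^ 3 * 343 ^ 2 * 18 ^ 2 * n ^ 2 := h2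
      _ ≤ (522 ^ 6) ^ 2 * n ^ 2 := by
          gcongr
          norm_num
      _ = (522 ^ 6 * n) ^ 2 := by ring
  exact (Nat.pow_le_pow_iff_left (by norm_num)).mp h3

/-- For each of the four forms every natural number `n` has a represented number `P ≤ n` with
`n - P ≤ 522 n^(1/6)`. -/
theorem result (F : ℕ → ℕ → ℕ → ℕ → ℕ) (hF : F = P1 ∨ F = P2 ∨ F = P3 ∨ F = P4) (n : ℕ) :
    ∃ w x y z : ℕ, F w x y z ≤ n ∧ (n - F w x y z) ^ 6 ≤ 522 ^ 6 * n := by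
  rcases hF with rfl | rfl | rfl | rfl
  · obtain ⟨w, x, y, z, h1, h2⟩ := greedy 1 2 1 n (by norm_num) (by norm_num) (by norm_num)
      (by norm_num) (by norm_num)
    have e : P1 w x y z = P (1, 2, 1) w x y z := by simp only [P1, P]; ring
    exact ⟨w, x, y, z, by rw [e]; exact h1, by rw [e]; exact h2⟩
  · obtain ⟨w, x, y, z, h1, h2⟩ := greedy 1 2 3 n (by norm_num) (by norm_num) (by norm_num)
      (by norm_num) (by norm_num)
    have e : P2 w x y z = P (1, 2, 3) w x y z := by simp only [P2, P]; ring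
    exact ⟨w, x, y, z, by rw [e]; exact h1, by rw [e]; exact h2⟩
  · obtain ⟨w, x, y, z, h1, h2⟩ := greedy 1 2 6 n (by norm_num) (by norm_num) (by norm_num)
      (by norm_num) (by norm_num)
    have e : P3 w x y z = P (1, 2, 6) w x y z := by simp only [P3, P]; ring
    exact ⟨w, x, y, z, by rw [e]; exact h1, by rw [e]; exact h2⟩
  · obtain ⟨w, x, y, z, h1, h2⟩ := greedy 2 4 1 n (by norm_num) (by norm_num) (by norm_num)
      (by norm_num) (by norm_num)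
    have e : P4 w x y z = P (2, 4, 1) w x y z := by simp only [P4, P]; ring
    exact ⟨w, x, y, z, by rw [e]; exact h1, by rw [e]; exact h2⟩

end Pool.Agent.Results.MP_525e39_nt.ShortGaps
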